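import Mathlib
import Pool.Agent.Y827.RO.NinE

/-! Project IX: a finite form of van der Waerden's theorem; the sets with many narrow progressions are
partition regular. -/

set_option autoImplicit false
open Filter Topology Finset

namespace Pool.Agent.Y827.IX

open Pool.Agent.Y827.RO

theorem vdw (l w : ℕ) : ∃ W : ℕ, ∀ χ : ℕ → Fin w, ∃ s t : ℕ, s ≤ W ∧ 1 ≤ t ∧ t ≤ W ∧
    (∀ j < l, s + j * t ≤ W) ∧ ∀ j < l, χ (s + j * t) = χ s := by
  classical
  obtain ⟨ι, _, h⟩ := Combinatorics.Line.exists_mono_in_high_dimension (Fin (l + 1)) (Fin w)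
  refine ⟨Fintype.card ι * (l + 1), fun χ => ?_⟩
  obtain ⟨L, c, hc⟩ := h (fun v => χ (∑ i, (v i : ℕ)))
  -- the fixed part and the moving part
  set s : ℕ := ∑ i, (L (0 : Fin (l + 1)) i : ℕ) with hs
  set t : ℕ := (univ.filter (fun i : ι => L.idxFun i = none)).card with ht
  have hsum : ∀ x : Fin (l + 1), ∑ i, (L x i : ℕ) = s + (x : ℕ) * t := by
    intro x
    have h1 : ∀ i, (L x i : ℕ) = (L (0 : Fin (l + 1)) i : ℕ) + if L.idxFun i = none then (x : ℕ) else 0 := by
      intro i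
      rw [Combinatorics.Line.coe_apply, Combinatorics.Line.coe_apply]
      cases h2 : L.idxFun i with
      | none => simp
      | some y => simp
    rw [sum_congr rfl (fun i _ => h1 i), sum_add_distrib, ← sum_filter, sum_const, smul_eq_mul, ← ht,
      mul_comm t]
  have hle : ∀ x : Fin (l + 1), ∑ i, (L x i : ℕ) ≤ Fintype.card ι * (l + 1) := by
    intro x
    refine (sum_le_card_nsmul _ _ (l + 1) (fun i _ => ?_)).trans (le_of_eq ?_)
    · exact (L x i).2.le
    · rw [card_univ, smul_eq_mul]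
  have ht1 : 1 ≤ t := by
    obtain ⟨i, hi⟩ := L.proper
    exact card_pos.2 ⟨i, mem_filter.2 ⟨mem_univ _, hi⟩⟩
  have htW : t ≤ Fintype.card ι * (l + 1) := by
    refine (card_le_univ _).trans ?_
    exact Nat.le_mul_of_pos_right _ (Nat.succ_pos _)
  have hcol : ∀ j, j < l + 1 → χ (s + j * t) = c := by
    intro j hj
    have this : χ (∑ i, (L ⟨j, hj⟩ i : ℕ)) = c := hc ⟨j, hj⟩
    rwa [hsum] at this
  refine ⟨s, t, ?_, ht1, htW, fun j hj => ?_, fun j hj => ?_⟩
  · have := hle 0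
    exact this
  · have := hle ⟨j, by omega⟩
    rwa [hsum] at this
  · have h0 := hcol 0 (Nat.succ_pos _)
    rw [Nat.zero_mul, Nat.add_zero] at h0
    rw [hcol j (by omega), h0]

open Classical in
/-- one length -/
def NarL (X : ℕ → Prop) (l : ℕ) : Prop := ∃ C : ℕ, ∃ᶠ N : ℕ in atTop, ∃ d : ℕ, 1 ≤ d ∧
  (d : ℝ) ≤ (Real.log N) ^ C ∧ (N : ℝ) / (Real.log N) ^ C ≤
    (((Icc 1 N).filter (fun n : ℕ => ∀ j < l, X (n + j * d))).card : ℝ)

theorem NarL.anti {X : ℕ → Prop} {l l' : ℕ} (hl : l' ≤ l) (h : NarL X l) : NarL X l' := by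
  classical
  obtain ⟨C, hC⟩ := h
  refine ⟨C, hC.mono ?_⟩
  rintro N ⟨d, h1, h2, h3⟩
  refine ⟨d, h1, h2, h3.trans ?_⟩
  rw [Nat.cast_le]
  apply card_le_card
  intro n hn
  rw [mem_filter] at hn ⊢
  exact ⟨hn.1, fun j hj => hn.2 j (by omega)⟩

/-- the color of the monochromatic subprogression -/
theorem NarL.color {X : ℕ → Prop} {w : ℕ} (f : ℕ → Fin w) {l W : ℕ}
    (hW : ∀ χ : ℕ → Fin w, ∃ s t : ℕ, s ≤ W ∧ 1 ≤ t ∧ t ≤ W ∧
      (∀ j < l, s + j * t ≤ W) ∧ ∀ j < l, χ (s + j * t) = χ s)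
    (h : NarL X (W + 1)) : ∃ c, NarL (fun n => X n ∧ f n = c) l := by
  classical
  have : Nonempty (Fin w) := ⟨f 0⟩
  obtain ⟨C, hC⟩ := h
  -- the parameters
  set A : Finset (ℕ × ℕ × Fin w) := range (W + 1) ×ˢ (Icc 1 W ×ˢ (univ : Finset (Fin w))) with hA
  have hAc : A.card ≤ (W + 1) * (W * w) := by
    rw [hA, card_product, card_product, card_range, Nat.card_Icc, card_univ, Fintype.card_fin,
      Nat.add_sub_cancel]
  set R : ℕ := (W + 1) * (W * w) + 1 with hR
  -- for each such `N` some parameters are good for many `n`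
  have key : ∃ᶠ N : ℕ in atTop, ∃ c : Fin w, ∃ d : ℕ, 1 ≤ d ∧ (d : ℝ) ≤ (Real.log (2 * N : ℕ)) ^ (C + 1) ∧
      ((2 * N : ℕ) : ℝ) / (Real.log (2 * N : ℕ)) ^ (C + 1) ≤
        (((Icc 1 (2 * N)).filter (fun n : ℕ => ∀ j < l, X (n + j * d) ∧ f (n + j * d) = c)).card : ℝ) := by
    have hev : ∀ᶠ N : ℕ in atTop, ((W : ℝ) * (Real.log N) ^ C ≤ N) := by
      have h1 : ∀ᶠ x : ℝ in atTop, (W : ℝ) * (Real.log x) ^ C ≤ x := by
        have := (isLittleO_log_rpow_rpow_atTop (s := 1) (C : ℝ) one_pos).bound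
          (c := 1 / ((W : ℝ) + 1)) (by positivity)
        filter_upwards [this, eventually_ge_atTop 3] with x hx hx3
        have hl : 0 ≤ Real.log x := Real.log_nonneg (by linarith)
        rw [Real.rpow_natCast, Real.rpow_one, Real.norm_eq_abs, Real.norm_eq_abs,
          abs_of_nonneg (by positivity), abs_of_nonneg (by linarith)] at hx
        have hW0 : (0 : ℝ) ≤ W := Nat.cast_nonneg _
        have hp : 0 ≤ (Real.log x) ^ C := by positivity
        have h2 : ((W : ℝ) + 1) * (Real.log x) ^ C ≤ x := by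
          have h3 := mul_le_mul_of_nonneg_left hx (show (0 : ℝ) ≤ (W : ℝ) + 1 by positivity)
          have h4 : ((W : ℝ) + 1) * (1 / ((W : ℝ) + 1) * x) = x := by
            field_simp
          linarith
        nlinarith
      exact (tendsto_natCast_atTop_atTop (R := ℝ)).eventually h1
    refine (hC.and_eventually (hev.and ((log_ev (2 * R + W + 1)).and (eventually_ge_atTop 3)))).mono ?_
    rintro N ⟨⟨d, hd1, hd2, hd3⟩, hW1, hlog, hN3⟩
    set S : Finset ℕ := (Icc 1 N).filter (fun n : ℕ => ∀ j < W + 1, X (n + j * d)) with hS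
    have hpar : ∀ n ∈ S, ∃ a ∈ A, ∀ j < l, X (n + (a.1 + j * a.2.1) * d) ∧
        f (n + (a.1 + j * a.2.1) * d) = a.2.2 := by
      intro n hn
      obtain ⟨s, t, h1, h2, h3, h4, h5⟩ := hW (fun i => f (n + i * d))
      refine ⟨(s, t, f (n + s * d)), ?_, fun j hj =>
        ⟨(mem_filter.1 hn).2 (s + j * t) (Nat.lt_succ_of_le (h4 j hj)), h5 j hj⟩⟩
      rw [hA, mem_product, mem_product, mem_range, mem_Icc]
      exact ⟨by omega, ⟨h2, h3⟩, mem_univ _⟩
    choose! φ hφA hφ using hpar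
    have hAne : S.Nonempty → A.Nonempty := fun ⟨n, hn⟩ => ⟨φ n, hφA n hn⟩
    have hN0 : (0 : ℝ) < N := by
      have : (3 : ℝ) ≤ N := by exact_mod_cast hN3
      linarith
    have hl0 : (0 : ℝ) < Real.log N := by
      have : (0 : ℝ) ≤ (2 * R + W + 1 : ℕ) := Nat.cast_nonneg _
      have h1 : (1 : ℝ) ≤ (2 * R + W + 1 : ℕ) := by exact_mod_cast (by omega)
      linarith
    have hSpos : (0 : ℝ) < S.card := lt_of_lt_of_le (by positivity) hd3
    have hSne : S.Nonempty := card_pos.1 (by exact_mod_cast hSpos)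
    obtain ⟨a, haA, ha⟩ := exists_max_image A (fun a => (S.filter (fun n => φ n = a)).card) (hAne hSne)
    have hcount : S.card ≤ A.card * (S.filter (fun n => φ n = a)).card := by
      rw [card_eq_sum_card_fiberwise (f := φ) (t := A) (fun n hn => hφA n hn)]
      exact (sum_le_card_nsmul _ _ _ fun b hb => ha b hb).trans (le_of_eq (by rw [smul_eq_mul]))
    obtain ⟨s, t, c⟩ := a
    rw [hA, mem_product, mem_product, mem_range, mem_Icc] at haA
    obtain ⟨hs, ⟨ht1, htW⟩, -⟩ := haA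
    simp only at hs ht1 htW
    have hlog2 : Real.log N ≤ Real.log (2 * N : ℕ) := by
      apply Real.log_le_log hN0
      push_cast
      linarith
    have hlog2' : (0 : ℝ) < Real.log (2 * N : ℕ) := lt_of_lt_of_le hl0 hlog2
    have hpC : (0 : ℝ) < (Real.log N) ^ C := by positivity
    have hle1 : (W : ℝ) ≤ Real.log N := by
      have : (W : ℝ) ≤ ((2 * R + W + 1 : ℕ) : ℝ) := by exact_mod_cast (by omega)
      linarith
    have hle2 : (2 * R : ℝ) ≤ Real.log N := by
      have : ((2 * R : ℕ) : ℝ) ≤ ((2 * R + W + 1 : ℕ) : ℝ) := by exact_mod_cast (by omega)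
      push_cast at this hlog ⊢
      linarith
    have hpC1 : (Real.log N) ^ (C + 1) ≤ (Real.log (2 * N : ℕ)) ^ (C + 1) :=
      pow_le_pow_left₀ hl0.le hlog2 _
    refine ⟨c, t * d, Nat.mul_pos ht1 hd1, ?_, ?_⟩
    · push_cast
      have h1 : (t : ℝ) ≤ Real.log N := le_trans (by exact_mod_cast htW) hle1
      have h2 : (t : ℝ) * d ≤ Real.log N * (Real.log N) ^ C :=
        mul_le_mul h1 hd2 (Nat.cast_nonneg _) hl0.le
      have h3 : Real.log N * (Real.log N) ^ C = (Real.log N) ^ (C + 1) := by ring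
      have h4 : Real.log (2 * N : ℕ) = Real.log (2 * (N : ℝ)) := by push_cast; rfl
      rw [h4] at hpC1
      linarith
    · have hinj : (S.filter (fun n => φ n = (s, t, c))).card ≤
          ((Icc 1 (2 * N)).filter (fun n : ℕ => ∀ j < l, X (n + j * (t * d)) ∧ f (n + j * (t * d)) = c)).card := by
        refine card_le_card_of_injOn (fun n => n + s * d) (fun n hn => ?_) (fun x _ y _ h => ?_)
        · rw [mem_coe, mem_filter] at hn
          have h1 := hφ n hn.1
          rw [hn.2] at h1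
          have h2 := (mem_Icc.1 (mem_filter.1 hn.1).1)
          have h3 : s * d ≤ N := by
            have h4 : ((s * d : ℕ) : ℝ) ≤ N := by
              push_cast
              have h5 : (s : ℝ) ≤ W := by exact_mod_cast (by omega)
              calc (s : ℝ) * d ≤ W * (Real.log N) ^ C :=
                    mul_le_mul h5 hd2 (Nat.cast_nonneg _) (Nat.cast_nonneg _)
                _ ≤ N := hW1
            exact_mod_cast h4
          rw [mem_coe, mem_filter, mem_Icc]
          refine ⟨⟨?_, ?_⟩, fun j hj => ?_⟩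
          · show 1 ≤ n + s * d
            omega
          · show n + s * d ≤ 2 * N
            omega
          have h6 := h1 j hj
          have h7 : n + (s + j * t) * d = n + s * d + j * (t * d) := by ring
          simp only at h6
          rwa [h7] at h6
        · simpa using h
      have h1 : ((S.card : ℕ) : ℝ) ≤ R * (((Icc 1 (2 * N)).filter (fun n : ℕ => ∀ j < l,
          X (n + j * (t * d)) ∧ f (n + j * (t * d)) = c)).card : ℝ) := by
        have h2 : S.card ≤ R * ((Icc 1 (2 * N)).filter (fun n : ℕ => ∀ j < l,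
            X (n + j * (t * d)) ∧ f (n + j * (t * d)) = c)).card :=
          hcount.trans (Nat.mul_le_mul (hAc.trans (by omega)) hinj)
        exact_mod_cast h2
      have h2 : (N : ℝ) / (Real.log N) ^ C ≤ R * (((Icc 1 (2 * N)).filter (fun n : ℕ => ∀ j < l,
          X (n + j * (t * d)) ∧ f (n + j * (t * d)) = c)).card : ℝ) := hd3.trans h1
      have hR0 : (0 : ℝ) < R := by exact_mod_cast (by omega)
      have h3 : (N : ℝ) / (Real.log N) ^ C / R ≤ (((Icc 1 (2 * N)).filter (fun n : ℕ => ∀ j < l,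
          X (n + j * (t * d)) ∧ f (n + j * (t * d)) = c)).card : ℝ) := by
        rw [div_le_iff₀ hR0]; linarith
      refine le_trans ?_ h3
      have h4 : ((2 * N : ℕ) : ℝ) / (Real.log (2 * N : ℕ)) ^ (C + 1) ≤ (2 * N : ℝ) / (Real.log N) ^ (C + 1) := by
        have h5 : ((2 * N : ℕ) : ℝ) = 2 * N := by push_cast; ring
        rw [h5]
        have h6 : Real.log (2 * N : ℕ) = Real.log (2 * (N : ℝ)) := by push_cast; rfl
        rw [h6] at hpC1
        apply div_le_div_of_nonneg_left (by positivity) (by positivity) hpC1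
      refine h4.trans ?_
      rw [div_div, div_le_div_iff₀ (by positivity) (by positivity), pow_succ]
      have h7 : 2 * (N : ℝ) * ((Real.log N) ^ C * R) = N * ((Real.log N) ^ C * (2 * R)) := by ring
      rw [h7]
      exact mul_le_mul_of_nonneg_left (mul_le_mul_of_nonneg_left hle2 hpC.le) hN0.le
  -- one color
  have key2 : ∃ c : Fin w, ∃ᶠ N : ℕ in atTop, ∃ d : ℕ, 1 ≤ d ∧ (d : ℝ) ≤ (Real.log (2 * N : ℕ)) ^ (C + 1) ∧
      ((2 * N : ℕ) : ℝ) / (Real.log (2 * N : ℕ)) ^ (C + 1) ≤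
        (((Icc 1 (2 * N)).filter (fun n : ℕ => ∀ j < l, X (n + j * d) ∧ f (n + j * d) = c)).card : ℝ) := by
    by_contra hcon
    push Not at hcon
    have h1 : ∀ c : Fin w, ∀ᶠ N : ℕ in atTop, ¬ ∃ d : ℕ, 1 ≤ d ∧ (d : ℝ) ≤ (Real.log (2 * N : ℕ)) ^ (C + 1) ∧
      ((2 * N : ℕ) : ℝ) / (Real.log (2 * N : ℕ)) ^ (C + 1) ≤
        (((Icc 1 (2 * N)).filter (fun n : ℕ => ∀ j < l, X (n + j * d) ∧ f (n + j * d) = c)).card : ℝ) := by
      intro c
      exact not_frequently.1 (fun hf => by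
        have := hcon c
        exact (not_frequently.2 (this.mono fun N hN hex => by
          obtain ⟨d, g1, g2, g3⟩ := hex
          exact absurd (hN d g1 g2) (not_lt.2 g3))) hf)
    have h2 := (eventually_all.2 h1)
    exact key (h2.mono fun N hN ⟨c, hc⟩ => hN c hc)
  obtain ⟨c, hc⟩ := key2
  refine ⟨c, C + 1, ?_⟩
  have ht : Tendsto (fun N : ℕ => 2 * N) atTop atTop := by
    apply tendsto_atTop_mono (f := fun m : ℕ => m) _ tendsto_id
    intro m
    show m ≤ 2 * m
    omega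
  refine (ht.frequently (p := fun N : ℕ => ∃ d : ℕ, 1 ≤ d ∧ (d : ℝ) ≤ (Real.log (N : ℝ)) ^ (C + 1) ∧
      (N : ℝ) / (Real.log (N : ℝ)) ^ (C + 1) ≤
        (((Icc 1 N).filter (fun n : ℕ => ∀ j < l, X (n + j * d) ∧ f (n + j * d) = c)).card : ℝ)) hc).mono ?_
  rintro N ⟨d, h1, h2, h3⟩
  refine ⟨d, h1, h2, h3.trans (le_of_eq ?_)⟩
  congr!

theorem Nar.partition {X : ℕ → Prop} {w : ℕ} (f : ℕ → Fin w) (h : Nar X) :
    ∃ c, Nar (fun n => X n ∧ f n = c) := by
  classical
  have h1 : ∀ l, ∃ c, NarL (fun n => X n ∧ f n = c) l := by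
    intro l
    obtain ⟨W, hW⟩ := vdw l w
    exact NarL.color f hW (h (W + 1))
  choose c hc using h1
  obtain ⟨c₀, hc₀⟩ := Finite.exists_infinite_fiber c
  refine ⟨c₀, fun l => ?_⟩
  have hinf : (c ⁻¹' {c₀}).Infinite := Set.infinite_coe_iff.1 hc₀
  obtain ⟨l', hl', hll'⟩ := hinf.exists_gt l
  have h2 := hc l'
  have h3 : c l' = c₀ := hl'
  rw [h3] at h2
  exact h2.anti hll'.le

end Pool.Agent.Y827.IX
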