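import Mathlib

/-! Project IX: order-separated subsets of finitely many large finite sets of integers. -/

set_option autoImplicit false
open Finset

namespace Pool.Agent.Y827.IX

/-- the `K`-th smallest element -/
theorem kth {α : Type*} [LinearOrder α] (F : Finset α) {K : ℕ} (h1 : 1 ≤ K) (hK : K ≤ F.card) :
    ∃ τ ∈ F, (F.filter (fun x => x ≤ τ)).card = K := by
  classical
  let e := F.orderEmbOfFin rfl
  have hK' : K - 1 < F.card := by omega
  refine ⟨e ⟨K - 1, hK'⟩, F.orderEmbOfFin_mem rfl _, ?_⟩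
  have h2 : F.filter (fun x => x ≤ e ⟨K - 1, hK'⟩) =
      ((univ : Finset (Fin F.card)).filter (fun i => i ≤ ⟨K - 1, hK'⟩)).map e.toEmbedding := by
    ext x
    rw [mem_filter, mem_map]
    constructor
    · rintro ⟨hx, hle⟩
      have hr : x ∈ Set.range e := by
        rw [range_orderEmbOfFin]; exact hx
      obtain ⟨i, rfl⟩ := hr
      exact ⟨i, mem_filter.2 ⟨mem_univ _, e.le_iff_le.1 hle⟩, rfl⟩
    · rintro ⟨i, hi, rfl⟩
      exact ⟨F.orderEmbOfFin_mem rfl _, e.le_iff_le.2 (mem_filter.1 hi).2⟩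
  rw [h2, card_map]
  have h3 : ((univ : Finset (Fin F.card)).filter (fun i => i ≤ ⟨K - 1, hK'⟩)) = Finset.Iic ⟨K - 1, hK'⟩ := by
    ext i
    simp
  rw [h3, Fin.card_Iic]
  simp only
  omega

theorem sep {ι : Type*} [DecidableEq ι] (K : ℕ) (hK : 1 ≤ K) (t : ℕ) : ∀ (S : Finset ι) (F : ι → Finset ℤ),
    S.card = t → (∀ g ∈ S, t * K ≤ (F g).card) →
    ∃ G : ι → Finset ℤ, (∀ g ∈ S, G g ⊆ F g ∧ (G g).card = K) ∧
      ∀ g ∈ S, ∀ g' ∈ S, g ≠ g' → (∀ x ∈ G g, ∀ y ∈ G g', x < y) ∨ (∀ x ∈ G g, ∀ y ∈ G g', y < x) := by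
  classical
  induction t with
  | zero =>
    intro S F hS _
    rw [card_eq_zero] at hS
    subst hS
    exact ⟨F, fun g hg => absurd hg (notMem_empty g), fun g hg => absurd hg (notMem_empty g)⟩
  | succ t ih =>
    intro S F hS hF
    have hle : ∀ g ∈ S, K ≤ (F g).card := fun g hg => by
      have h1 := hF g hg
      have h2 : (t + 1) * K = t * K + K := by ring
      omega
    have hτ : ∀ g ∈ S, ∃ τ ∈ F g, ((F g).filter (fun x => x ≤ τ)).card = K := fun g hg => kth (F g) hK (hle g hg)
    choose! τ hτF hτ using hτ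
    have hSne : S.Nonempty := card_pos.1 (by omega)
    obtain ⟨g₀, hg₀, hmin⟩ := exists_min_image S τ hSne
    obtain ⟨G, hG1, hG2⟩ := ih (S.erase g₀) (fun g => (F g).filter (fun x => τ g₀ < x)) (by
      rw [card_erase_of_mem hg₀]; omega) (fun g hg => by
        have hgS := mem_of_mem_erase hg
        have h1 := hF g hgS
        have h2 : (t + 1) * K = t * K + K := by ring
        have h3 := card_filter_add_card_filter_not (s := F g) (fun x => x ≤ τ g₀)
        have h4 : ((F g).filter (fun x => x ≤ τ g₀)).card ≤ K := by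
          rw [← hτ g hgS]
          apply card_le_card
          intro x hx
          rw [mem_filter] at hx ⊢
          exact ⟨hx.1, hx.2.trans (hmin g hgS)⟩
        have h5 : ((F g).filter (fun x => ¬ x ≤ τ g₀)).card = ((F g).filter (fun x => τ g₀ < x)).card := by
          congr 1
          apply filter_congr
          intro x _
          exact not_le
        omega)
    refine ⟨fun g => if g = g₀ then (F g₀).filter (fun x => x ≤ τ g₀) else G g, ?_, ?_⟩
    · intro g hg
      by_cases h : g = g₀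
      · subst h
        simp only [if_true]
        exact ⟨filter_subset _ _, hτ g hg⟩
      · simp only [if_neg h]
        have h1 := hG1 g (mem_erase.2 ⟨h, hg⟩)
        exact ⟨h1.1.trans (filter_subset _ _), h1.2⟩
    · intro g hg g' hg' hne
      by_cases h : g = g₀
      · have h' : g' ≠ g₀ := fun h2 => hne (h.trans h2.symm)
        simp only [if_pos h, if_neg h']
        left
        intro x hx y hy
        have h1 := (mem_filter.1 hx).2
        have h2 := (mem_filter.1 ((hG1 g' (mem_erase.2 ⟨h', hg'⟩)).1 hy)).2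
        exact lt_of_le_of_lt h1 h2
      · by_cases h' : g' = g₀
        · simp only [if_neg h, if_pos h']
          right
          intro x hx y hy
          have h1 := (mem_filter.1 hy).2
          have h2 := (mem_filter.1 ((hG1 g (mem_erase.2 ⟨h, hg⟩)).1 hx)).2
          exact lt_of_le_of_lt h1 h2
        · simp only [if_neg h, if_neg h']
          exact hG2 g (mem_erase.2 ⟨h, hg⟩) g' (mem_erase.2 ⟨h', hg'⟩) hne

/-- order-separated values of finitely many injective functions -/
theorem select_sep (n K : ℕ) (hK : 1 ≤ K) (f : ℕ → ℕ → ℤ) (hinj : ∀ g, Set.InjOn (f g) {k | k < n * K}) :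
    ∃ σ : ℕ → ℕ → ℕ, (∀ g < n, ∀ i < K, σ g i < n * K) ∧
      (∀ g < n, ∀ i < K, ∀ i' < K, f g (σ g i) = f g (σ g i') → i = i') ∧
      ∀ g < n, ∀ g' < n, g ≠ g' → (∀ i < K, ∀ i' < K, f g (σ g i) < f g' (σ g' i')) ∨
        (∀ i < K, ∀ i' < K, f g' (σ g' i') < f g (σ g i)) := by
  classical
  obtain ⟨G, h1, h2⟩ := sep K hK n (range n) (fun g => (range (n * K)).image (f g)) (card_range n)
    (fun g hg => by
      rw [card_image_of_injOn, card_range]
      intro x hx y hy h
      exact hinj g (by simpa using hx) (by simpa using hy) h)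
  -- enumerate the sets
  have h3 : ∀ g < n, ∀ i < K, ∃ k, k < n * K ∧ ∃ (hc : (G g).card = K) (hi : i < K),
      f g k = (G g).orderEmbOfFin hc ⟨i, hi⟩ := by
    intro g hg i hi
    have hc := (h1 g (mem_range.2 hg)).2
    have hm := (h1 g (mem_range.2 hg)).1 ((G g).orderEmbOfFin_mem hc ⟨i, hi⟩)
    obtain ⟨k, hk, he⟩ := mem_image.1 hm
    exact ⟨k, mem_range.1 hk, hc, hi, he⟩
  choose! σ hσ using h3
  have hmem : ∀ g < n, ∀ i < K, f g (σ g i) ∈ G g := by
    intro g hg i hi
    obtain ⟨_, hc, hi', he⟩ := hσ g hg i hi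
    rw [he]
    exact (G g).orderEmbOfFin_mem hc _
  refine ⟨σ, fun g hg i hi => (hσ g hg i hi).1, ?_, ?_⟩
  · intro g hg i hi i' hi' h
    obtain ⟨_, hc, hi1, he⟩ := hσ g hg i hi
    obtain ⟨_, hc', hi2, he'⟩ := hσ g hg i' hi'
    rw [he, he'] at h
    have h4 := ((G g).orderEmbOfFin hc).injective h
    exact congrArg Fin.val h4
  · intro g hg g' hg' hne
    rcases h2 g (mem_range.2 hg) g' (mem_range.2 hg') hne with h | h
    · left
      intro i hi i' hi'
      exact h _ (hmem g hg i hi) _ (hmem g' hg' i' hi')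
    · right
      intro i hi i' hi'
      exact h _ (hmem g hg i hi) _ (hmem g' hg' i' hi')

end Pool.Agent.Y827.IX
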