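import Mathlib
import Pool.Agent.Y827.IX.Sel

/-! Project IX: the index of a prime in a block of primes with a given pattern. -/

set_option autoImplicit false
open Finset

namespace Pool.Agent.Y827.IX

theorem rank (P : Finset ℕ) {n M : ℕ} (hP : ∀ t ≤ M, (n + t).Prime ↔ t ∈ P) {t : ℕ} (ht : t ≤ M) :
    Nat.primeCounting (n + t) = Nat.count Nat.Prime n + (P.filter (fun x => x ≤ t)).card := by
  have h1 : Nat.primeCounting (n + t) = Nat.count Nat.Prime (n + (t + 1)) := rfl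
  rw [h1, Nat.count_add, Nat.count_eq_card_filter_range (fun k => (n + k).Prime)]
  congr 1
  apply congrArg Finset.card
  ext k
  rw [mem_filter, mem_filter, mem_range]
  constructor
  · rintro ⟨h2, h3⟩
    exact ⟨(hP k (by omega)).1 h3, by omega⟩
  · rintro ⟨h2, h3⟩
    exact ⟨by omega, (hP k (by omega)).2 h2⟩

theorem resid {w : ℕ} (hw : 0 < w) (a ρ : ℕ) : ∃ v, 1 ≤ v ∧ v ≤ w ∧ a + v ≡ ρ [MOD w] := by
  obtain ⟨b, hb⟩ : ∃ b, a + b ≡ ρ [MOD w] := by
    refine ⟨ρ + (w - 1) * a, ?_⟩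
    have e : a + (ρ + (w - 1) * a) = ρ + w * a := by
      obtain ⟨w', rfl⟩ : ∃ w', w = w' + 1 := ⟨w - 1, by omega⟩
      rw [Nat.add_sub_cancel]
      ring
    rw [e]
    have h2 : w * a ≡ 0 [MOD w] := (Nat.modEq_zero_iff_dvd).2 (Dvd.intro _ rfl)
    exact (Nat.ModEq.add_left ρ h2)
  by_cases h0 : b % w = 0
  · refine ⟨w, hw, le_rfl, ?_⟩
    have h1 : b ≡ w [MOD w] := by
      show b % w = w % w
      rw [h0, Nat.mod_self]
    exact (Nat.ModEq.add_left a h1).symm.trans hb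
  · refine ⟨b % w, Nat.pos_of_ne_zero h0, (Nat.mod_lt _ hw).le, ?_⟩
    exact (Nat.ModEq.add_left a (Nat.mod_modEq b w)).trans hb

/-- a convex part with at least `w` elements contains elements of all ranks modulo `w` -/
theorem cluster (P R : Finset ℕ) (hRP : R ⊆ P) {w : ℕ} (hw : 0 < w) (hR : w ≤ R.card)
    (hconv : ∀ x ∈ P, x ∉ R → (∀ y ∈ R, x < y) ∨ (∀ y ∈ R, y < x)) (c ρ : ℕ) :
    ∃ t ∈ R, c + (P.filter (fun x => x ≤ t)).card ≡ ρ [MOD w] := by
  classical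
  set B : Finset ℕ := P.filter (fun x => x ∉ R ∧ ∀ y ∈ R, x < y) with hB
  obtain ⟨v, hv1, hv2, hv3⟩ := resid hw (c + B.card) ρ
  obtain ⟨τ, hτ, hc⟩ := kth R hv1 (hv2.trans hR)
  refine ⟨τ, hτ, ?_⟩
  have h1 : P.filter (fun x => x ≤ τ) = B ∪ R.filter (fun x => x ≤ τ) := by
    ext x
    rw [mem_filter, mem_union, mem_filter, mem_filter]
    constructor
    · rintro ⟨hx, hle⟩
      by_cases hxR : x ∈ R
      · exact Or.inr ⟨hxR, hle⟩
      · rcases hconv x hx hxR with h | h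
        · exact Or.inl ⟨hx, hxR, h⟩
        · exact absurd (h τ hτ) (not_lt.2 hle)
    · rintro (⟨hx, hxR, h⟩ | ⟨hx, hle⟩)
      · exact ⟨hx, (h τ hτ).le⟩
      · exact ⟨hRP hx, hle⟩
  have h2 : Disjoint B (R.filter (fun x => x ≤ τ)) := by
    rw [disjoint_left]
    intro x hx hx2
    exact (mem_filter.1 hx).2.1 (mem_filter.1 hx2).1
  rw [h1, card_union_of_disjoint h2, hc, ← add_assoc]
  exact hv3

end Pool.Agent.Y827.IX
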