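import Mathlib
import Pool.Agent.Y827.IX.Part
import Pool.Agent.Y827.IX.Rank
import Pool.Agent.Y827.RO.NinE

/-! Project IX: the indices of the two primes are in prescribed residue classes. -/

set_option autoImplicit false
open Filter Topology Finset

namespace Pool.Agent.Y827.IX

open Pool.Agent.Y827.RO Pool.Agent.H947R3.GM Pool.Agent.W142.TF Pool.Agent.W142.TB

/-- many pairs of primes `p, p + h` with indices `≡ r` and `≡ r'` modulo `w` and with `s ≤ J` steps between -/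
def IG (w r r' J h : ℕ) : Prop := ∃ s : ℕ, 1 ≤ s ∧ s ≤ J ∧
  Nar (fun p => p.Prime ∧ (p + h).Prime ∧ Nat.primeCounting p ≡ r [MOD w] ∧
    Nat.primeCounting (p + h) ≡ r' [MOD w] ∧ Nat.primeCounting (p + h) = Nat.primeCounting p + s)

/-- two clusters of a block of primes -/
theorem pair_of {Q r₀ M w : ℕ} (hQ : 0 < Q) (hw : 0 < w) (P : Finset ℕ) (hPM : ∀ t ∈ P, t ≤ M)
    (hnar : Nar (fun m => ∀ t ≤ M, (Q * m + r₀ + t).Prime ↔ t ∈ P))
    (R R' : Finset ℕ) (hR : R ⊆ P) (hR' : R' ⊆ P) (hwR : w ≤ R.card) (hwR' : w ≤ R'.card)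
    (hconv : ∀ x ∈ P, x ∉ R → (∀ y ∈ R, x < y) ∨ (∀ y ∈ R, y < x))
    (hconv' : ∀ x ∈ P, x ∉ R' → (∀ y ∈ R', x < y) ∨ (∀ y ∈ R', y < x))
    (hlt : ∀ x ∈ R, ∀ y ∈ R', x < y) (r r' : ℕ) :
    ∃ t ∈ R, ∃ t' ∈ R', IG w r r' P.card (t' - t) := by
  classical
  obtain ⟨c, hc⟩ := Nar.partition (w := w)
    (fun m => (⟨Nat.count Nat.Prime (Q * m + r₀) % w, Nat.mod_lt _ hw⟩ : Fin w)) hnar
  obtain ⟨t, ht, h1⟩ := cluster P R hR hw hwR hconv (c : ℕ) r
  obtain ⟨t', ht', h2⟩ := cluster P R' hR' hw hwR' hconv' (c : ℕ) r'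
  have htt' : t < t' := hlt t ht t' ht'
  have htM := hPM t (hR ht)
  have htM' := hPM t' (hR' ht')
  set a : ℕ := (P.filter (fun x => x ≤ t)).card with ha
  set b : ℕ := (P.filter (fun x => x ≤ t')).card with hb
  have hab : a < b := by
    apply card_lt_card
    rw [ssubset_iff_of_subset]
    · exact ⟨t', mem_filter.2 ⟨hR' ht', le_rfl⟩, fun h => absurd (mem_filter.1 h).2 (not_le.2 htt')⟩
    · intro x hx
      rw [mem_filter] at hx ⊢
      exact ⟨hx.1, hx.2.trans htt'.le⟩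
  refine ⟨t, ht, t', ht', b - a, by omega, ?_, ?_⟩
  · have : b ≤ P.card := card_filter_le _ _
    omega
  · refine Nar.affine (q := Q) (b := r₀ + t) hQ (hc.mono ?_)
    rintro m ⟨hm, hcm⟩
    have hcm' : Nat.count Nat.Prime (Q * m + r₀) % w = c := congrArg Fin.val hcm
    have e1 : Q * m + (r₀ + t) = Q * m + r₀ + t := by ring
    have e2 : Q * m + r₀ + t + (t' - t) = Q * m + r₀ + t' := by omega
    have h3 := rank P hm htM
    have h4 := rank P hm htM'
    rw [e1, e2]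
    refine ⟨(hm t htM).2 (hR ht), (hm t' htM').2 (hR' ht'), ?_, ?_, ?_⟩
    · rw [h3, ← ha]
      refine Nat.ModEq.trans (Nat.ModEq.add_right a ?_) h1
      have := Nat.mod_modEq (Nat.count Nat.Prime (Q * m + r₀)) w
      rw [hcm'] at this
      exact this.symm
    · rw [h4, ← hb]
      refine Nat.ModEq.trans (Nat.ModEq.add_right b ?_) h2
      have := Nat.mod_modEq (Nat.count Nat.Prime (Q * m + r₀)) w
      rw [hcm'] at this
      exact this.symm
    · rw [h3, h4, ← ha, ← hb]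
      omega

/-- classes divided into subclasses -/
theorem subcl (n m K w M' : ℕ) (hw : 0 < w)
    (hQ : ∀ N a : ℕ, 0 < N → a.Coprime N →
      ∀ H : Fin (n * m) → Fin K → ℕ, AdmN N H →
      ∃ (Q r M : ℕ) (E : Finset (Fin (n * m) × Fin K)), 0 < Q ∧ N ∣ Q ∧ r ≡ a [MOD N] ∧
        (∀ g i, N * H g i ≤ M) ∧ M' + 1 ≤ (E.image Prod.fst).card ∧
        Nar (fun m => (∀ g i, (Q * m + r + N * H g i).Prime ↔ (g, i) ∈ E) ∧
          ∀ t ≤ M, (∀ g i, N * H g i ≠ t) → ¬ (Q * m + r + t).Prime))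
    (H : Fin n → Fin (m * K) → ℕ) (hHinj : ∀ g i i', H g i = H g i' → i = i')
    (hsep : ∀ g g', g ≠ g' → (∀ i i', H g i < H g' i') ∨ (∀ i i', H g' i' < H g i))
    (hdiv : ∀ p, p.Prime → p ≤ n * m * K → ∀ g i, (p : ℤ) ∣ (H g i : ℤ)) :
    ∃ S : Finset (Fin n), M' + 1 ≤ S.card * m + n * w ∧ ∀ g ∈ S, ∀ g' ∈ S, (∀ i i', H g i < H g' i') →
      ∀ r r', ∃ i i', IG w r r' (n * m * K) (H g' i' - H g i) := by
  classical
  -- the subclasses
  let cl : Fin (n * m) → Fin n := fun c => (finProdFinEquiv.symm c).1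
  let H' : Fin (n * m) → Fin K → ℕ := fun c j => H (cl c) (finProdFinEquiv ((finProdFinEquiv.symm c).2, j))
  have hH'e : ∀ c j c' j', H' c j = H' c' j' → c = c' ∧ j = j' := by
    intro c j c' j' h
    have h1 : cl c = cl c' := by
      by_contra hne
      rcases hsep _ _ hne with h2 | h2
      · exact absurd h (h2 _ _).ne
      · exact absurd h (h2 _ _).ne'
    have h2 : (finProdFinEquiv ((finProdFinEquiv.symm c).2, j) : Fin (m * K)) =
        finProdFinEquiv ((finProdFinEquiv.symm c').2, j') := by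
      apply hHinj (cl c)
      have h3 : H (cl c) (finProdFinEquiv ((finProdFinEquiv.symm c).2, j)) =
          H (cl c') (finProdFinEquiv ((finProdFinEquiv.symm c').2, j')) := h
      rw [← h1] at h3
      exact h3
    have h3 := finProdFinEquiv.injective h2
    rw [Prod.mk.injEq] at h3
    refine ⟨finProdFinEquiv.symm.injective (Prod.ext h1 h3.1), h3.2⟩
  have hadm : AdmN 1 H' := by
    refine admN_of' H' (fun x y h => ?_) fun p hp hle g i => hdiv p hp hle _ _
    have := hH'e _ _ _ _ h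
    exact Prod.ext this.1 this.2
  obtain ⟨Q, r₀, M, E, hQ0, -, -, hM, hE, hnar⟩ := hQ 1 1 one_pos (Nat.coprime_one_right 1) H' hadm
  simp only [one_mul] at hM hnar
  set P : Finset ℕ := E.image (fun x => H' x.1 x.2) with hP
  have hPM : ∀ t ∈ P, t ≤ M := by
    intro t ht
    obtain ⟨x, _, rfl⟩ := mem_image.1 ht
    exact hM _ _
  have hnar' : Nar (fun m => ∀ t ≤ M, (Q * m + r₀ + t).Prime ↔ t ∈ P) := by
    refine hnar.mono ?_
    rintro k ⟨h1, h2⟩ t ht
    by_cases hex : ∃ g i, H' g i = t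
    · obtain ⟨g, i, rfl⟩ := hex
      rw [h1 g i]
      constructor
      · intro h
        exact mem_image.2 ⟨(g, i), h, rfl⟩
      · intro h
        obtain ⟨x, hx, he⟩ := mem_image.1 h
        obtain ⟨e1, e2⟩ := hH'e _ _ _ _ he
        have : x = (g, i) := Prod.ext e1 e2
        rwa [← this]
    · push Not at hex
      constructor
      · intro h
        exact absurd h (h2 t ht hex)
      · intro h
        obtain ⟨x, _, he⟩ := mem_image.1 h
        exact absurd he (hex _ _)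
  have hPc : P.card ≤ n * m * K := by
    refine card_image_le.trans ((card_le_univ _).trans (le_of_eq ?_))
    rw [Fintype.card_prod, Fintype.card_fin, Fintype.card_fin]
  -- the clusters
  let R : Fin n → Finset ℕ := fun g => (E.filter (fun x => cl x.1 = g)).image (fun x => H' x.1 x.2)
  have hRP : ∀ g, R g ⊆ P := fun g => image_subset_image (filter_subset _ _)
  have hRH : ∀ g, ∀ t ∈ R g, ∃ i, H g i = t := by
    intro g t ht
    obtain ⟨x, hx, rfl⟩ := mem_image.1 ht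
    obtain ⟨_, rfl⟩ := mem_filter.1 hx
    exact ⟨_, rfl⟩
  have hPR : ∀ t ∈ P, ∃ g, t ∈ R g := by
    intro t ht
    obtain ⟨x, hx, rfl⟩ := mem_image.1 ht
    exact ⟨cl x.1, mem_image.2 ⟨x, mem_filter.2 ⟨hx, rfl⟩, rfl⟩⟩
  have hconv : ∀ g, ∀ x ∈ P, x ∉ R g → (∀ y ∈ R g, x < y) ∨ (∀ y ∈ R g, y < x) := by
    intro g x hx hxg
    obtain ⟨g', hg'⟩ := hPR x hx
    have hne : g' ≠ g := by
      rintro rfl
      exact hxg hg'
    obtain ⟨i, rfl⟩ := hRH g' x hg'
    rcases hsep g' g hne with h | h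
    · left
      intro y hy
      obtain ⟨j, rfl⟩ := hRH g y hy
      exact h _ _
    · right
      intro y hy
      obtain ⟨j, rfl⟩ := hRH g y hy
      exact h _ _
  -- the number of elements of a cluster
  have hRc : ∀ g, ((E.image Prod.fst).filter (fun c => cl c = g)).card ≤ (R g).card := by
    intro g
    have h1 : ((E.image Prod.fst).filter (fun c => cl c = g)).card ≤ (E.filter (fun x => cl x.1 = g)).card := by
      have h2 : (E.image Prod.fst).filter (fun c => cl c = g) ⊆ (E.filter (fun x => cl x.1 = g)).image Prod.fst := by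
        intro c hc
        obtain ⟨h3, h4⟩ := mem_filter.1 hc
        obtain ⟨x, hx, rfl⟩ := mem_image.1 h3
        exact mem_image.2 ⟨x, mem_filter.2 ⟨hx, h4⟩, rfl⟩
      exact (card_le_card h2).trans card_image_le
    refine h1.trans (le_of_eq ?_)
    symm
    apply card_image_of_injective
    intro x y h
    have := hH'e _ _ _ _ h
    exact Prod.ext this.1 this.2
  have hclm : ∀ g, ((E.image Prod.fst).filter (fun c => cl c = g)).card ≤ m := by
    intro g
    have h1 : ((E.image Prod.fst).filter (fun c => cl c = g)).card ≤ (univ : Finset (Fin m)).card := by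
      refine card_le_card_of_injOn (fun c => (finProdFinEquiv.symm c).2) (fun _ _ => mem_coe.2 (mem_univ _)) ?_
      intro x hx y hy h
      rw [mem_coe, mem_filter] at hx hy
      apply finProdFinEquiv.symm.injective
      exact Prod.ext (hx.2.trans hy.2.symm) h
    rwa [card_univ, Fintype.card_fin] at h1
  refine ⟨univ.filter (fun g => w ≤ ((E.image Prod.fst).filter (fun c => cl c = g)).card), ?_, ?_⟩
  · refine hE.trans ?_
    rw [card_eq_sum_card_fiberwise (f := cl) (t := univ) (fun _ _ => mem_coe.2 (mem_univ _))]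
    rw [← sum_filter_add_sum_filter_not univ (fun g => w ≤ ((E.image Prod.fst).filter (fun c => cl c = g)).card)]
    apply Nat.add_le_add
    · refine (sum_le_card_nsmul _ _ m fun g _ => hclm g).trans (le_of_eq ?_)
      rw [smul_eq_mul]
    · refine (sum_le_card_nsmul _ _ w fun g hg => ?_).trans ?_
      · exact (not_le.1 (mem_filter.1 hg).2).le
      · rw [smul_eq_mul]
        apply Nat.mul_le_mul_right
        refine (card_filter_le _ _).trans (le_of_eq ?_)
        rw [card_univ, Fintype.card_fin]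
  · intro g hg g' hg' hlt r r'
    obtain ⟨t, ht, t', ht', hIG⟩ := pair_of hQ0 hw P hPM hnar' (R g) (R g') (hRP g) (hRP g')
      ((mem_filter.1 hg).2.trans (hRc g)) ((mem_filter.1 hg').2.trans (hRc g')) (hconv g) (hconv g')
      (fun x hx y hy => by
        obtain ⟨i, rfl⟩ := hRH g x hx
        obtain ⟨j, rfl⟩ := hRH g' y hy
        exact hlt _ _) r r'
    obtain ⟨i, rfl⟩ := hRH g t ht
    obtain ⟨i', rfl⟩ := hRH g' t' ht'
    obtain ⟨s, h1, h2, h3⟩ := hIG
    exact ⟨i, i', s, h1, h2.trans hPc, h3⟩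

theorem idxWin (ε : ℝ) (hε : 0 < ε) (w : ℕ) (hw : 0 < w) : ∃ J : ℕ, ∀ r r' : ℕ,
    ∃ M : ℕ, 0 < M ∧ ∀ N : ℕ, 0 < N → M ∣ N → ∃ L : ℕ, ∀ T : ℕ, L ≤ T → ∀ u : ℕ,
      (5 / 9 - ε) * T ≤ ({k : ℕ | u < k ∧ k ≤ u + T ∧ N * k ∈ {h : ℕ | IG w r r' J h}}.ncard : ℝ) := by
  classical
  obtain ⟨e, he⟩ : ∃ e : ℝ, e = min ε (1 / 10) := ⟨_, rfl⟩
  have he0 : 0 < e := by rw [he]; positivity
  have heε : e ≤ ε := by rw [he]; exact min_le_left _ _
  have he1 : e ≤ 1 / 10 := by rw [he]; exact min_le_right _ _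
  obtain ⟨β, hβ⟩ : ∃ β : ℝ, β = 5 / 18 - e / 4 := ⟨_, rfl⟩
  have hβ5 : 1 / 5 ≤ β := by linarith
  have hβ2 : β ≤ 1 / 2 := by linarith
  obtain ⟨n₀, hn₀⟩ := s_maiB β hβ5 hβ2 (e / 2) (by positivity)
  obtain ⟨n, hn⟩ : ∃ n, n = max n₀ 1 := ⟨_, rfl⟩
  have hnn₀ : n₀ ≤ n := by omega
  have hn1 : 1 ≤ n := by omega
  have hn1' : (1 : ℝ) ≤ n := by exact_mod_cast hn1
  obtain ⟨m, hm⟩ : ∃ m, m = ⌈4 * (w : ℝ) / e⌉₊ + 1 := ⟨_, rfl⟩
  have hm1 : 1 ≤ m := by omega
  have hmw : (w : ℝ) ≤ e / 4 * m := by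
    have h1 := Nat.le_ceil (4 * (w : ℝ) / e)
    have h2 : (⌈4 * (w : ℝ) / e⌉₊ : ℝ) ≤ m := Nat.cast_le.2 (by rw [hm]; exact Nat.le_succ _)
    have h3 : 4 * (w : ℝ) / e ≤ m := h1.trans h2
    rw [div_le_iff₀ he0] at h3
    linarith
  -- the number of classes
  obtain ⟨M', hM'⟩ : ∃ M', M' = ⌈(5 / 18 : ℝ) * (n * m : ℕ)⌉₊ - 1 := ⟨_, rfl⟩
  have hnm1 : 1 ≤ n * m := Nat.mul_pos hn1 hm1
  have hnm0 : (0 : ℝ) < (5 / 18 : ℝ) * (n * m : ℕ) := by
    have : (1 : ℝ) ≤ (n * m : ℕ) := by exact_mod_cast hnm1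
    linarith
  have hceil : 0 < ⌈(5 / 18 : ℝ) * (n * m : ℕ)⌉₊ := Nat.ceil_pos.2 hnm0
  have hM'1 : M' + 1 = ⌈(5 / 18 : ℝ) * (n * m : ℕ)⌉₊ := by omega
  have hM'lt : (M' : ℝ) < (5 / 18 : ℝ) * (n * m : ℕ) := by
    have h := Nat.ceil_lt_add_one hnm0.le
    have h2 : ((M' + 1 : ℕ) : ℝ) = (⌈(5 / 18 : ℝ) * (n * m : ℕ)⌉₊ : ℝ) := by rw [hM'1]
    push_cast at h2 h ⊢
    linarith
  have hM'ge : (5 / 18 : ℝ) * (n * m : ℕ) ≤ ((M' + 1 : ℕ) : ℝ) := by
    rw [hM'1]; exact Nat.le_ceil _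
  have hM'n : (18 / 5 : ℝ) * M' < (n * m : ℕ) := by linarith
  obtain ⟨K, hK, hQ⟩ := blockE (n * m) M' hnm1 hM'n
  have hmK1 : 1 ≤ m * K := Nat.mul_pos hm1 hK
  refine ⟨n * m * K, fun r r' => ?_⟩
  obtain ⟨M, hM, hall⟩ := windows {h : ℕ | IG w r r' (n * m * K) h} (n * m * K).factorial
    (Nat.factorial_pos _) (2 * β) (e / 2)
    (fun hall => by
      obtain ⟨Q, A, s, hs, hQ1, hinj, hcr⟩ := hn₀ n hnn₀
        {k : ℤ | (((n * m * K).factorial : ℕ) : ℤ) * k ∈ Cpl {h : ℕ | IG w r r' (n * m * K) h}}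
        (fun M hM => by
          obtain ⟨Q, h1, h2, h3⟩ := hall M hM
          exact ⟨Q, h1, h2, fun L₀ => h3 L₀⟩) (n * (m * K))
      obtain ⟨σ, hσ1, hσ2, hσ3⟩ := select_sep n (m * K) hmK1 (fun g i => (Q g : ℤ) * A g i) (fun g => by
        intro x hx y hy hxy
        have hQ0 : (Q g : ℤ) ≠ 0 := by have := hQ1 g; omega
        exact hinj g hx hy (mul_left_cancel₀ hQ0 hxy))
      obtain ⟨H, C, hH⟩ := points n (m * K) (n * m * K).factorial Q (fun g i => A g (σ g i))
      have hM0 : (0 : ℤ) < (((n * m * K).factorial : ℕ) : ℤ) := by exact_mod_cast Nat.factorial_pos _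
      have hlt : ∀ g i g' i', H g i < H g' i' ↔ (Q g : ℤ) * A g (σ g i) < Q g' * A g' (σ g' i') := by
        intro g i g' i'
        have h1 : (H g i < H g' i') ↔ ((H g i : ℤ) < (H g' i' : ℤ)) := by exact_mod_cast Iff.rfl
        rw [h1, hH, hH, mul_lt_mul_iff_right₀ hM0]
        constructor
        · intro h; linarith
        · intro h; linarith
      have heq : ∀ g i i', H g i = H g i' → i = i' := by
        intro g i i' h
        have e1 : (((n * m * K).factorial : ℕ) : ℤ) * (Q g * A g (σ g i) + C) =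
            ((n * m * K).factorial : ℕ) * (Q g * A g (σ g i') + C) := by rw [← hH, ← hH, h]
        have e2 := mul_left_cancel₀ hM0.ne' e1
        have e3 : (Q g : ℤ) * A g (σ g i) = Q g * A g (σ g i') := by linarith
        exact Fin.ext (hσ2 g g.2 i i.2 i' i'.2 e3)
      have hsep : ∀ g g', g ≠ g' → (∀ i i', H g i < H g' i') ∨ (∀ i i', H g' i' < H g i) := by
        intro g g' hne
        rcases hσ3 g g.2 g' g'.2 (fun h => hne (Fin.ext h)) with h | h
        · exact Or.inl fun i i' => (hlt _ _ _ _).2 (h i i.2 i' i'.2)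
        · exact Or.inr fun i i' => (hlt _ _ _ _).2 (h i i.2 i' i'.2)
      obtain ⟨S, hS, hB⟩ := subcl n m K w M' hw hQ H heq hsep (fun p hp hle g i => by
        rw [hH]
        exact Dvd.dvd.mul_right (Int.natCast_dvd_natCast.2 (Nat.dvd_factorial hp.pos hle)) _)
      have hSβ : β * n ≤ S.card := by
        have hm0 : (0 : ℝ) < m := by exact_mod_cast hm1
        have h1 : ((M' + 1 : ℕ) : ℝ) ≤ S.card * m + n * w := by exact_mod_cast hS
        have h2 : (n : ℝ) * w ≤ n * (e / 4 * m) := mul_le_mul_of_nonneg_left hmw (Nat.cast_nonneg _)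
        have h3 : ((n * m : ℕ) : ℝ) = n * m := by push_cast; ring
        rw [h3] at hM'ge
        have h4 : β * n * m ≤ S.card * m := by
          rw [hβ]
          nlinarith
        exact le_of_mul_le_mul_right h4 hm0
      obtain ⟨i, hi, j, hj, hij⟩ := hs.2 (S.map Fin.valEmbedding) (fun x hx => by
        rw [Finset.mem_map] at hx
        obtain ⟨y, _, rfl⟩ := hx
        exact mem_range.2 y.2) (by
          rw [card_map]
          exact hSβ)
      rw [Finset.mem_map] at hi hj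
      obtain ⟨g, hg, rfl⟩ := hi
      obtain ⟨g', hg', rfl⟩ := hj
      have hij' : (g : ℕ) ∈ s (g' : ℕ) := hij
      have hne : g ≠ g' := by
        rintro rfl
        exact absurd (mem_range.1 (hs.1 _ hij')) (lt_irrefl _)
      have hd : ∀ (ci cj : Fin (m * K)), (((n * m * K).factorial : ℕ) : ℤ) *
          ((Q g' : ℤ) * A g' (σ g' cj) - Q g * A g (σ g ci)) ∈ Cpl {h : ℕ | IG w r r' (n * m * K) h} :=
        fun ci cj => hcr g' g'.2 g hij' (σ g' cj) (σ g ci) (hσ1 _ g'.2 _ cj.2) (hσ1 _ g.2 _ ci.2)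
      rcases hsep g g' hne with h | h
      · obtain ⟨i, i', hI⟩ := hB g hg g' hg' h r r'
        have h5 := not_Cpl C (hH g' i') (hH g i) (hd i i')
        exact h5.2.2 (h i i') hI
      · obtain ⟨i', i, hI⟩ := hB g' hg' g hg (fun a b => h b a) r r'
        have h5 := not_Cpl C (hH g' i') (hH g i) (hd i i')
        exact h5.2.1 (h i i') hI)
  refine ⟨M, hM, fun N hN hd => ?_⟩
  obtain ⟨L, hL⟩ := hall N hN hd
  refine ⟨L, fun T hT u => le_trans ?_ (hL T hT u)⟩
  exact mul_le_mul_of_nonneg_right (by rw [hβ]; linarith) (Nat.cast_nonneg _)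

end Pool.Agent.Y827.IX
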